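import Pool.Agent.Lib.Forcing.Defs

/-!
The notions of the problem, relativised to a transitive class `N` of sets. Functions are sets
of ordered pairs, `omega` is the set of von Neumann natural numbers, and for ordinals `a ⊆ b`
means `a ≤ b`.
-/

universe u

namespace Pool.Agent.P.MP_9cf23f_lc

open ZFSet

/-- `f ≤* g`: `f n ≤ g n` for all `n` from some `m` on. -/
def LeStar (f g : ZFSet.{u}) : Prop :=
  ∃ m ∈ omega, ∀ n ∈ omega, m ⊆ n → ∀ a, pair n a ∈ f → ∀ b, pair n b ∈ g → a ⊆ b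

/-- `N` satisfies: `D` is a dominating family of functions `ω → ω`. -/
def IsDominatingIn (N : Set ZFSet.{u}) (D : ZFSet.{u}) : Prop :=
  (∀ g ∈ D, IsFunc omega omega g) ∧ ∀ f ∈ N, IsFunc omega omega f → ∃ g ∈ D, LeStar f g

/-- `N` satisfies: `R` is a strict well-ordering of `D`. -/
structure IsWellOrderIn (N : Set ZFSet.{u}) (D R : ZFSet.{u}) : Prop where
  irrefl : ∀ x ∈ D, pair x x ∉ R
  trans : ∀ x ∈ D, ∀ y ∈ D, ∀ z ∈ D, pair x y ∈ R → pair y z ∈ R → pair x z ∈ R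
  total : ∀ x ∈ D, ∀ y ∈ D, pair x y ∈ R ∨ x = y ∨ pair y x ∈ R
  least : ∀ X ∈ N, X ⊆ D → X ≠ ∅ → ∃ m ∈ X, ∀ y ∈ X, pair y m ∉ R

/-- `N` satisfies: the dominating number exists, that is, some dominating family is
well-orderable. -/
def DominatingNumberExists (N : Set ZFSet.{u}) : Prop :=
  ∃ D ∈ N, ∃ R ∈ N, IsDominatingIn N D ∧ IsWellOrderIn N D R

/-- `M` satisfies: `κ` is a cardinal, an ordinal with no bijection from a smaller ordinal. -/
def IsCardinalIn (M : Set ZFSet.{u}) (κ : ZFSet.{u}) : Prop :=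
  κ.IsOrdinal ∧ ∀ μ ∈ κ, ∀ b ∈ M, IsFunc μ κ b → ¬ ∀ y ∈ κ, ∃! x, pair x y ∈ b

/-- `M` satisfies: every infinite cardinal `κ` has cofinality `ω`, that is, some function
`c : ω → κ` is cofinal in `κ`. -/
def AllCardinalsCofOmega (M : Set ZFSet.{u}) : Prop :=
  ∀ κ ∈ M, IsCardinalIn M κ → omega ⊆ κ →
    ∃ c ∈ M, IsFunc omega κ c ∧ ∀ α ∈ κ, ∃ n β, pair n β ∈ c ∧ α ⊆ β

end Pool.Agent.P.MP_9cf23f_lc
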