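import Mathlib.Data.Set.Finite.Lattice
import Pool.Agent.Lib.Forcing.Generic
import Pool.Agent.P.MP_9cf23f_lc.Defs

/-!
In a transitive model `N` of ZF minus Power Set, a well-orderable dominating family yields an
ordinal without a cofinal `ω`-sequence.
-/

universe u

set_option synthInstance.maxSize 8192

namespace Pool.Agent.P.MP_9cf23f_lc

open ZFSet Pool.Agent.Lib.Forcing

theorem omega_induction {p : ZFSet.{u} → Prop} (h0 : p ∅) (hs : ∀ x, p x → p (insert x x)) :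
    ∀ x ∈ omega, p x := by
  intro x hx
  induction x using Quotient.inductionOn with
  | h x =>
    obtain ⟨⟨n⟩, h⟩ := hx
    have h1 : ∀ n : ℕ, p (ZFSet.mk (PSet.ofNat n)) := by
      intro n
      induction n with
      | zero => exact h0
      | succ n ih => exact hs _ ih
    have h2 : ZFSet.mk x = ZFSet.mk (PSet.ofNat n) := ZFSet.sound h
    rw [mk_eq, h2]
    exact h1 n

theorem isOrdinal_of_mem_omega : ∀ x ∈ omega.{u}, x.IsOrdinal :=
  omega_induction isOrdinal_empty fun _ => isOrdinal_succ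

theorem isOrdinal_omega : omega.{u}.IsOrdinal := by
  refine isOrdinal_iff_forall_mem_isOrdinal.2 ⟨?_, isOrdinal_of_mem_omega⟩
  have : ∀ x ∈ omega.{u}, x ∈ omega ∧ x ⊆ omega := by
    refine omega_induction ⟨omega_zero, ZFSet.empty_subset _⟩ fun x hx => ⟨omega_succ hx.1, ?_⟩
    intro y hy
    rcases mem_insert_iff.1 hy with rfl | hy
    exacts [hx.1, hx.2 hy]
  exact fun x hx => (this x hx).2

theorem finite_of_mem_omega : ∀ x ∈ omega.{u}, (x : Set ZFSet.{u}).Finite :=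
  omega_induction (by simp) fun x hx => by rw [coe_insert]; exact hx.insert x

theorem mem_succ_iff {a b : ZFSet.{u}} (ha : a.IsOrdinal) (hb : b.IsOrdinal) :
    a ∈ (insert b b : ZFSet.{u}) ↔ a ⊆ b := by
  rw [mem_insert_iff, ha.subset_iff_eq_or_mem hb]

theorem exists_bound {A : Set ZFSet.{u}} (hA : A.Finite) :
    (∀ a ∈ A, a ∈ omega) → ∃ v ∈ omega, ∀ a ∈ A, a ∈ v := by
  induction A, hA using Set.Finite.induction_on with
  | empty => exact fun _ => ⟨∅, omega_zero, fun _ h => h.elim⟩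
  | @insert a A _ _ ih =>
    intro h
    obtain ⟨v, hv, H⟩ := ih fun x hx => h x (Set.mem_insert_of_mem _ hx)
    have ha := h a (Set.mem_insert _ _)
    rcases (isOrdinal_of_mem_omega a ha).mem_or_subset (isOrdinal_of_mem_omega v hv) with h1 | h1
    · refine ⟨v, hv, ?_⟩
      rintro x (rfl | hx)
      exacts [h1, H x hx]
    · refine ⟨_, omega_succ ha, ?_⟩
      rintro x (rfl | hx)
      exacts [mem_insert _ _, mem_insert_of_mem _ (h1 (H x hx))]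

theorem exists_ge {m n : ZFSet.{u}} (hm : m ∈ omega) (hn : n ∈ omega) :
    ∃ k ∈ omega, m ⊆ k ∧ n ⊆ k := by
  rcases (isOrdinal_of_mem_omega m hm).subset_total (isOrdinal_of_mem_omega n hn) with h | h
  exacts [⟨n, hn, h, subset_rfl⟩, ⟨m, hm, subset_rfl, h⟩]

theorem LeStar.trans {f g h : ZFSet.{u}} (hg : IsFunc omega omega g) (h1 : LeStar f g)
    (h2 : LeStar g h) : LeStar f h := by
  obtain ⟨m, hm, h1⟩ := h1
  obtain ⟨m', hm', h2⟩ := h2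
  obtain ⟨k, hk, h3, h4⟩ := exists_ge hm hm'
  refine ⟨k, hk, fun n hn hkn a ha c hc => ?_⟩
  obtain ⟨b, hb, -⟩ := hg.2 n hn
  exact (h1 n hn (h3.trans hkn) a ha b hb).trans (h2 n hn (h4.trans hkn) b hb c hc)

theorem snd_mem_sUnion {a b F : ZFSet.{u}} (h : pair a b ∈ F) : b ∈ (⋃₀ ⋃₀ F : ZFSet.{u}) :=
  mem_sUnion.2 ⟨{a, b}, mem_sUnion.2 ⟨_, h, mem_pair.2 (Or.inr rfl)⟩, mem_pair.2 (Or.inr rfl)⟩

variable {N : Set ZFSet.{u}} [hN : ZFm N]

instance dfLeStar {s t : Env.{u} → ZFSet.{u}} [Tm N s] [Tm N t] :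
    Df N (fun e => LeStar (s e) (t e)) :=
  Df.subst2 (R := LeStar) (by unfold LeStar; infer_instance) s t

/-- Countably many finite sets of reals are strictly dominated by one real. -/
theorem exists_dominator {S : ZFSet.{u}} (hS : S ∈ N)
    (h1 : ∀ n g, pair n g ∈ S → IsFunc omega omega g)
    (h2 : ∀ n, {g | pair n g ∈ S}.Finite) :
    ∃ h ∈ N, IsFunc omega omega h ∧ ∀ n ∈ omega, ∀ g, pair n g ∈ S → LeStar g h ∧ ¬ LeStar h g := by
  have := InM.mk hS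
  let B : ZFSet.{u} → ZFSet.{u} → Prop := fun k v =>
    ∀ n ∈ omega, n ⊆ k → ∀ g, pair n g ∈ S → ∀ a, pair k a ∈ g → a ∈ v
  obtain ⟨h, hh, h3, h4⟩ := exists_pairSep (M := N) (fun k v => B k v ∧ ∀ v' ∈ v, ¬ B k v')
    (h := by dsimp only [B]; infer_instance) omega_mem omega_mem
  have h5 : ∀ k ∈ omega, ∃ v ∈ omega, B k v := by
    intro k hk
    have hf : (⋃ n ∈ ((insert k k : ZFSet.{u}) : Set ZFSet.{u}), ⋃ g ∈ {g | pair n g ∈ S},
        {a | pair k a ∈ g}).Finite := by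
      refine (finite_of_mem_omega _ (omega_succ hk)).biUnion fun n _ => (h2 n).biUnion fun g hg => ?_
      obtain ⟨a, -, ha⟩ := (h1 n g hg).2 k hk
      exact (Set.finite_singleton a).subset fun b hb => ha b hb
    obtain ⟨v, hv, H⟩ := exists_bound hf (by
      intro a ha
      simp only [Set.mem_iUnion] at ha
      obtain ⟨n, -, g, hg, ha⟩ := ha
      exact (pair_mem_prod.1 ((h1 n g hg).1 ha)).2)
    refine ⟨v, hv, fun n hn hnk g hg a ha => H a ?_⟩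
    simp only [Set.mem_iUnion]
    exact ⟨n, (mem_succ_iff (isOrdinal_of_mem_omega n hn) (isOrdinal_of_mem_omega k hk)).2 hnk,
      g, hg, ha⟩
  have h6 : IsFunc omega omega h := by
    refine ⟨h3, fun k hk => ?_⟩
    obtain ⟨v, ⟨hv, hB⟩, hmin⟩ := mem_wf.has_min {v | v ∈ omega ∧ B k v} (h5 k hk)
    refine ⟨v, (h4 k v).2 ⟨hk, hv, hB, fun v' h7 h8 =>
      hmin v' ⟨isOrdinal_omega.mem_trans h7 hv, h8⟩ h7⟩, fun w hw => ?_⟩
    obtain ⟨-, h7, h8, h9⟩ := (h4 k w).1 hw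
    rcases (isOrdinal_of_mem_omega w h7).mem_trichotomous (isOrdinal_of_mem_omega v hv)
      with h | h | h
    exacts [(hmin w ⟨h7, h8⟩ h).elim, h, (h9 v h hB).elim]
  refine ⟨h, hh, h6, fun n hn g hg => ⟨⟨n, hn, fun k hk hnk a ha b hb => ?_⟩, ?_⟩⟩
  · obtain ⟨-, h7, h8, -⟩ := (h4 k b).1 hb
    exact (isOrdinal_of_mem_omega b h7).subset_of_mem (h8 n hn hnk g hg a ha)
  · rintro ⟨m, hm, H⟩
    obtain ⟨k, hk, h7, h8⟩ := exists_ge hm hn
    obtain ⟨a, ha, -⟩ := (h1 n g hg).2 k hk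
    obtain ⟨b, hb, -⟩ := h6.2 k hk
    exact mem_irrefl a (H k hk h7 b hb a ha (((h4 k b).1 hb).2.2.1 n hn h8 g hg a ha))

/-- A dominating family in `N` given as a relation between `κ` and reals with finite sections. -/
structure Fam (N : Set ZFSet.{u}) (κ F : ZFSet.{u}) : Prop where
  mem : F ∈ N
  fin : ∀ α, {g | pair α g ∈ F}.Finite
  dom : ∀ α g, pair α g ∈ F → α ∈ κ
  real : ∀ α g, pair α g ∈ F → IsFunc omega omega g
  dominating : ∀ f ∈ N, IsFunc omega omega f → ∃ α g, pair α g ∈ F ∧ LeStar f g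

omit hN in
theorem exists_enum (D R : ZFSet.{u}) : ∃ E : ZFSet.{u} → ZFSet.{u}, ∀ x,
    (E x ∈ D ∧ (∀ y ∈ x, E y ≠ E x) ∧ ∀ w ∈ D, (∀ y ∈ x, E y ≠ w) → pair w (E x) ∉ R) ∨
    ((¬ ∃ d ∈ D, (∀ y ∈ x, E y ≠ d) ∧ ∀ w ∈ D, (∀ y ∈ x, E y ≠ w) → pair w d ∉ R) ∧ E x = ∅) := by
  classical
  let E : ZFSet.{u} → ZFSet.{u} := mem_wf.fix fun x IH =>
    if h : ∃ d ∈ D, (∀ y (hy : y ∈ x), IH y hy ≠ d) ∧
      ∀ w ∈ D, (∀ y (hy : y ∈ x), IH y hy ≠ w) → pair w d ∉ R then h.choose else ∅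
  refine ⟨E, fun x => ?_⟩
  have : E x = if h : ∃ d ∈ D, (∀ y ∈ x, E y ≠ d) ∧
      ∀ w ∈ D, (∀ y ∈ x, E y ≠ w) → pair w d ∉ R then h.choose else ∅ := by
    simp only [E]; rw [WellFounded.fix_eq]
  by_cases h : ∃ d ∈ D, (∀ y ∈ x, E y ≠ d) ∧ ∀ w ∈ D, (∀ y ∈ x, E y ≠ w) → pair w d ∉ R
  · left
    rw [dif_pos h] at this
    rw [this]
    exact h.choose_spec
  · right
    rw [dif_neg h] at this
    exact ⟨h, this⟩

theorem exists_fam (h : DominatingNumberExists N) :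
    ∃ κ, (κ ∈ N ∧ κ.IsOrdinal) ∧ ∃ F, Fam N κ F := by
  obtain ⟨D, hD, R, hR, hdom, hwo⟩ := h
  obtain ⟨E, hE⟩ := exists_enum D R
  have := InM.mk hD
  have := InM.mk hR
  let L : ZFSet.{u} → ZFSet.{u} → ZFSet.{u} → Prop := fun x f d =>
    (∀ y ∈ x, ¬ pair y d ∈ f) ∧ ∀ w ∈ D, (∀ y ∈ x, ¬ pair y w ∈ f) → ¬ pair w d ∈ R
  have hT : Tm N (fun e => E (e 0)) := by
    refine mem_recursion E (fun x f z => (z ∈ D ∧ L x f z) ∨ ((¬ ∃ d ∈ D, L x f d) ∧ z = ∅))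
      (hΦ := by dsimp only [L]; infer_instance) ?_
    intro x _ f _ Hf
    have hL : ∀ d, L x f d ↔
        (∀ y ∈ x, E y ≠ d) ∧ ∀ w ∈ D, (∀ y ∈ x, E y ≠ w) → pair w d ∉ R := by
      have : ∀ d, (∀ y ∈ x, ¬ pair y d ∈ f) ↔ ∀ y ∈ x, E y ≠ d := fun d =>
        forall_congr' fun y => forall_congr' fun hy => by rw [Hf y hy, eq_comm]
      intro d
      simp only [L, this]
    simp only [hL]
    rcases hE x with h | h
    · refine ⟨mem_of_mem hD h.1, fun z _ => ⟨?_, fun hz => Or.inl (hz ▸ h)⟩⟩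
      rintro (⟨h1, h2, h3⟩ | ⟨h1, -⟩)
      · rcases hwo.total z h1 _ h.1 with h4 | h4 | h4
        exacts [(h.2.2 z h1 h2 h4).elim, h4, (h3 _ h.1 h.2.1 h4).elim]
      · exact (h1 ⟨_, h⟩).elim
    · refine ⟨h.2 ▸ Trans.empty, fun z _ => ⟨?_, fun hz => Or.inr ⟨h.1, hz.trans h.2⟩⟩⟩
      rintro (h1 | ⟨-, h1⟩)
      · exact (h.1 ⟨z, h1⟩).elim
      · exact h1.trans h.2.symm
  have hT' : ∀ (s : Env.{u} → ZFSet.{u}) [Tm N s], Tm N (fun e => E (s e)) :=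
    fun s _ => hT.apply1 s
  have key : ∃ κ ∈ N, κ.IsOrdinal ∧ ∀ d ∈ D, ∃ α ∈ κ, E α = d := by
    by_contra hc
    push Not at hc
    have h1 : ∀ κ ∈ N, κ.IsOrdinal → E κ ∈ D ∧ ∀ y ∈ κ, E y ≠ E κ := by
      intro κ hκ ho
      have := InM.mk hκ
      rcases hE κ with h | h
      · exact ⟨h.1, h.2.1⟩
      · exfalso
        obtain ⟨d, hd, h2⟩ := hc κ hκ ho
        obtain ⟨m, hm, h3⟩ := hwo.least _ (sep_mem (fun d => ∀ y ∈ κ, E y ≠ d) hD) sep_subset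
          (fun h0 => (ZFSet.eq_empty _).1 h0 d (mem_sep.2 ⟨hd, h2⟩))
        exact h.1 ⟨m, (mem_sep.1 hm).1, (mem_sep.1 hm).2, fun w h4 h5 => h3 w (mem_sep.2 ⟨h4, h5⟩)⟩
    have h2 : ∀ α ∈ N, α.IsOrdinal → ∀ β ∈ N, β.IsOrdinal → E α = E β → α = β := by
      intro α hα ho β hβ ho' h
      rcases ho.mem_trichotomous ho' with h' | h' | h'
      exacts [((h1 β hβ ho').2 α h' h).elim, h', ((h1 α hα ho).2 β h' h.symm).elim]
    obtain ⟨b, hb, Hb⟩ := exists_repl (M := N) (fun α d => α.IsOrdinal ∧ E α = d)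
      (sep_mem (fun d => ∃ α ∈ N, α.IsOrdinal ∧ E α = d) hD) (by
        intro d hd
        obtain ⟨α, hα, ho, rfl⟩ := (mem_sep.1 hd).2
        exact ⟨α, ⟨hα, ho, rfl⟩, fun β hβ => h2 β hβ.1 hβ.2.1 α hα ho hβ.2.2⟩)
    have h3 : ∀ α ∈ N, α.IsOrdinal → α ∈ b := by
      intro α hα ho
      obtain ⟨β, hβ, ho', h⟩ := Hb (E α) (mem_sep.2 ⟨(h1 α hα ho).1, α, hα, ho, rfl⟩)
      rwa [← h2 β (mem_of_mem hb hβ) ho' α hα ho h]
    exact mem_irrefl _ ((isOrdinal_rk b).rank_lt_iff_mem (isOrdinal_rk b) |>.1 (by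
      have := rank_lt_of_mem (h3 _ (rk_mem hb) (isOrdinal_rk b))
      rw [rk, Ordinal.rank_toZFSet] at this
      exact (lt_irrefl _ this).elim))
  obtain ⟨κ, hκ, ho, h⟩ := key
  obtain ⟨F, hF, -, HF⟩ := exists_pairSep (M := N) (fun α d => d = E α) hκ hD
  refine ⟨κ, ⟨hκ, ho⟩, F, hF, fun α => ?_, fun α g hg => ((HF α g).1 hg).1,
    fun α g hg => hdom.1 g ((HF α g).1 hg).2.1, fun f hf hf' => ?_⟩
  · exact (Set.finite_singleton (E α)).subset fun g hg => ((HF α g).1 hg).2.2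
  · obtain ⟨g, hg, h1⟩ := hdom.2 f hf hf'
    obtain ⟨α, hα, rfl⟩ := h g hg
    exact ⟨α, _, (HF _ _).2 ⟨hα, hg, rfl⟩, h1⟩

theorem not_exists_of_outer {M : Set ZFSet.{u}} (hMN : M ⊆ N)
    (hord : ∀ x ∈ N, x.IsOrdinal → x ∈ M) (hcof : AllCardinalsCofOmega M) :
    ¬ DominatingNumberExists N := by
  intro h
  obtain ⟨κ, ⟨⟨hκ, ho⟩, F, hF⟩, hmin⟩ :=
    mem_wf.has_min {κ | (κ ∈ N ∧ κ.IsOrdinal) ∧ ∃ F, Fam N κ F} (exists_fam h)
  have hmin' : ∀ μ ∈ κ, ∀ F', ¬ Fam N μ F' := fun μ hμ F' hF' =>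
    hmin μ ⟨⟨mem_of_mem hκ hμ, ho.mem hμ⟩, F', hF'⟩ hμ
  have := InM.mk hF.mem
  have hU : (⋃₀ ⋃₀ F : ZFSet.{u}) ∈ N := sUnion_mem (sUnion_mem hF.mem)
  rcases ho.subset_total isOrdinal_omega with hω | hω
  · obtain ⟨h, hh, h1, h2⟩ := exists_dominator hF.mem hF.real hF.fin
    obtain ⟨α, g, h3, h4⟩ := hF.dominating h hh h1
    exact (h2 α (hω (hF.dom α g h3)) g h3).2 h4
  have hcard : IsCardinalIn M κ := by
    refine ⟨ho, fun μ hμ b hb hfun hbij => ?_⟩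
    have := InM.mk (hMN hb)
    obtain ⟨F', hF', -, HF'⟩ := exists_pairSep (M := N)
      (fun x g => ∃ y, pair x y ∈ b ∧ pair y g ∈ F) (mem_of_mem hκ hμ) hU
    refine hmin' μ hμ F' ⟨hF', fun x => ?_, fun x g hg => ((HF' x g).1 hg).1, fun x g hg => ?_,
      fun f hf hf' => ?_⟩
    · by_cases hx : x ∈ μ
      · obtain ⟨y, -, hy⟩ := hfun.2 x hx
        refine (hF.fin y).subset fun g hg => ?_
        obtain ⟨-, -, y', h1, h2⟩ := (HF' x g).1 hg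
        rwa [hy y' h1] at h2
      · exact Set.finite_empty.subset fun g hg => hx ((HF' x g).1 hg).1
    · obtain ⟨-, -, y', -, h2⟩ := (HF' x g).1 hg
      exact hF.real _ _ h2
    · obtain ⟨α, g, h1, h2⟩ := hF.dominating f hf hf'
      obtain ⟨x, hx, -⟩ := hbij α (hF.dom α g h1)
      exact ⟨x, g, (HF' x g).2 ⟨(pair_mem_prod.1 (hfun.1 hx)).1, snd_mem_sUnion h1, α, hx, h1⟩, h2⟩
  have hlim : ∀ β ∈ κ, insert β β ∈ κ := by
    intro β hβ
    have hβo := ho.mem hβ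
    have h1 : (insert β β : ZFSet.{u}) ⊆ κ := by
      intro z hz
      rcases mem_insert_iff.1 hz with rfl | hz
      exacts [hβ, ho.mem_trans hz hβ]
    rcases ((isOrdinal_succ hβo).subset_iff_eq_or_mem ho).1 h1 with h2 | h2
    swap
    · exact h2
    exfalso
    have h0 : ∅ ∈ β := by
      have h3 := hω (omega_succ omega_zero)
      rw [← h2] at h3
      rcases mem_insert_iff.1 h3 with h3 | h3
      · rw [← h3]; exact mem_insert _ _
      · exact hβo.mem_trans (mem_insert _ _) h3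
    have := InM.mk (mem_of_mem hκ hβ)
    obtain ⟨F', hF', -, HF'⟩ := exists_pairSep (M := N)
      (fun x g => pair x g ∈ F ∨ pair β g ∈ F) (mem_of_mem hκ hβ) hU
    refine hmin' β hβ F' ⟨hF', fun x => ?_, fun x g hg => ((HF' x g).1 hg).1, fun x g hg => ?_,
      fun f hf hf' => ?_⟩
    · exact ((hF.fin x).union (hF.fin β)).subset fun g hg => ((HF' x g).1 hg).2.2
    · exact ((HF' x g).1 hg).2.2.elim (hF.real _ _) (hF.real _ _)
    · obtain ⟨α, g, h3, h4⟩ := hF.dominating f hf hf'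
      have h5 := hF.dom α g h3
      rw [← h2] at h5
      rcases mem_insert_iff.1 h5 with rfl | h5
      · exact ⟨∅, g, (HF' _ g).2 ⟨h0, snd_mem_sUnion h3, Or.inr h3⟩, h4⟩
      · exact ⟨α, g, (HF' _ g).2 ⟨h5, snd_mem_sUnion h3, Or.inl h3⟩, h4⟩
  obtain ⟨c, hc, hcf, hcc⟩ := hcof κ (hord κ hκ ho) hcard hω
  have := InM.mk (hMN hc)
  let Bad : ZFSet.{u} → ZFSet.{u} → Prop := fun n β => ∃ g0, pair β g0 ∈ F ∧
    ∀ γ, pair n γ ∈ c → ∀ α g, pair α g ∈ F → α ⊆ γ → ¬ LeStar g0 g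
  have hBad : ∀ n ∈ omega, ∃ β, Bad n β := by
    intro n hn
    obtain ⟨γ, hγ, hγ'⟩ := hcf.2 n hn
    have hγκ := (pair_mem_prod.1 (hcf.1 hγ)).2
    have hs := hlim γ hγκ
    obtain ⟨F', hF', -, HF'⟩ := exists_pairSep (M := N)
      (fun x g => pair x g ∈ F) (mem_of_mem hκ hs) hU
    by_contra hcon
    refine hmin' _ hs F' ⟨hF', fun x => (hF.fin x).subset fun g hg => ((HF' x g).1 hg).2.2,
      fun x g hg => ((HF' x g).1 hg).1, fun x g hg => hF.real _ _ ((HF' x g).1 hg).2.2,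
      fun f hf hf' => ?_⟩
    obtain ⟨β, g0, h1, h2⟩ := hF.dominating f hf hf'
    by_contra h3
    refine hcon ⟨β, g0, h1, fun γ' h4 α g h5 h6 h7 => h3 ⟨α, g, (HF' _ _).2 ⟨?_,
      snd_mem_sUnion h5, h5⟩, h2.trans (hF.real _ _ h1) h7⟩⟩
    rw [hγ' γ' h4] at h6
    exact (mem_succ_iff (ho.mem (hF.dom _ _ h5)) (ho.mem hγκ)).2 h6
  obtain ⟨S, hS, -, HS⟩ := exists_pairSep (M := N)
    (fun n g => ∃ β, pair β g ∈ F ∧ Bad n β ∧ ∀ β' ∈ β, ¬ Bad n β')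
    (h := by dsimp only [Bad]; infer_instance) omega_mem hU
  obtain ⟨h, hh, h1, h2⟩ := exists_dominator hS (fun n g hg => by
      obtain ⟨-, -, β, h1, -⟩ := (HS n g).1 hg
      exact hF.real _ _ h1) (fun n => by
      by_cases hex : ∃ β ∈ κ, Bad n β ∧ ∀ β' ∈ β, ¬ Bad n β'
      · obtain ⟨β, hβ, h1, h2⟩ := hex
        refine (hF.fin β).subset fun g hg => ?_
        obtain ⟨-, -, β', h3, h4, h5⟩ := (HS n g).1 hg
        rcases (ho.mem hβ).mem_trichotomous (ho.mem (hF.dom _ _ h3)) with h | h | h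
        exacts [(h5 β h h1).elim, h ▸ h3, (h2 β' h h4).elim]
      · refine Set.finite_empty.subset fun g hg => ?_
        obtain ⟨-, -, β', h3, h4, h5⟩ := (HS n g).1 hg
        exact hex ⟨β', hF.dom _ _ h3, h4, h5⟩)
  obtain ⟨α, g, h3, h4⟩ := hF.dominating h hh h1
  obtain ⟨n, γ, h5, h6⟩ := hcc α (hF.dom _ _ h3)
  have hn := (pair_mem_prod.1 (hcf.1 h5)).1
  obtain ⟨β, ⟨g0, h7, h8⟩, h9⟩ := mem_wf.has_min {β | Bad n β} (hBad n hn)
  have h10 := (h2 n hn g0 ((HS n g0).2 ⟨hn, snd_mem_sUnion h7, β, h7, ⟨g0, h7, h8⟩,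
    fun β' h h' => h9 β' h' h⟩)).1
  exact h8 γ h5 α g h3 h6 (h10.trans h1 h4)

end Pool.Agent.P.MP_9cf23f_lc
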